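import Mathlib

/-!
# Project OC (helper723): triangular faces of arrangements of orthogonal circles (MP_020e9d_co, Q1)

Known: `3 n - 3 ≤ t(n) ≤ 4 n`.  We prove `t(n) ≥ (32 / 9) n - O(√n)` and `t(n) ≥ (16 n - 40) / 5` for all `n ≥ 2`; in
particular `t(n) > 3 n - 3` for all `n ≥ 26`.

Idea: around every crossing point `p` of an arrangement one can put a tiny circle orthogonal to the two circles through `p`;
its four quarters are triangular faces.  So an arrangement with `n` circles and `V` crossing points gives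
`t(n + j) ≥ 4 j` for all `j ≤ V`.
-/

set_option autoImplicit false

open Metric Set

namespace Pool.Agent.U723.OC

/-- a circle of the plane -/
structure Circ where
  /-- the centre -/
  c : ℂ
  /-- the radius -/
  r : ℝ
  pos : 0 < r

/-- the points of a circle -/
def Circ.pts (C : Circ) : Set ℂ := sphere C.c C.r

/-- the closed disc bounded by a circle -/
def Circ.disc (C : Circ) : Set ℂ := closedBall C.c C.r

/-- the circles `A` and `B` intersect orthogonally -/
def Orth (A B : Circ) : Prop := dist A.c B.c ^ 2 = A.r ^ 2 + B.r ^ 2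

/-- an arrangement of orthogonal circles: any two circles are disjoint or intersect orthogonally -/
def IsArr (S : Finset Circ) : Prop :=
  ∀ A ∈ S, ∀ B ∈ S, A ≠ B → Orth A B ∨ Disjoint A.pts B.pts

/-- the union of the circles -/
def un (S : Finset Circ) : Set ℂ := ⋃ C ∈ S, C.pts

/-- the crossing points -/
def cross (S : Finset Circ) : Set ℂ := {z | ∃ A ∈ S, ∃ B ∈ S, A ≠ B ∧ z ∈ A.pts ∧ z ∈ B.pts}

/-- a face: a connected component of the complement of the union of the circles -/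
def IsFace (S : Finset Circ) (F : Set ℂ) : Prop :=
  ∃ z, z ∉ un S ∧ F = connectedComponentIn (un S)ᶜ z

/-- `A` is a closed arc of the circle `C` -/
def IsArc (A : Set ℂ) (C : Circ) : Prop :=
  A ⊆ C.pts ∧ IsClosed A ∧ IsPreconnected A ∧ A.Nontrivial ∧ A ≠ C.pts

/-- a triangular face: its boundary consists of three arcs of three circles, joined at three crossing points; there are
no other crossing points on the boundary -/
def Triangular (S : Finset Circ) (F : Set ℂ) : Prop :=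
  IsFace S F ∧ ∃ C₁ ∈ S, ∃ C₂ ∈ S, ∃ C₃ ∈ S, C₁ ≠ C₂ ∧ C₂ ≠ C₃ ∧ C₁ ≠ C₃ ∧
    ∃ (A₁ A₂ A₃ : Set ℂ) (P₁ P₂ P₃ : ℂ), IsArc A₁ C₁ ∧ IsArc A₂ C₂ ∧ IsArc A₃ C₃ ∧
      P₁ ≠ P₂ ∧ P₂ ≠ P₃ ∧ P₁ ≠ P₃ ∧ A₂ ∩ A₃ = {P₁} ∧ A₁ ∩ A₃ = {P₂} ∧ A₁ ∩ A₂ = {P₃} ∧
      frontier F = A₁ ∪ A₂ ∪ A₃ ∧ frontier F ∩ cross S = {P₁, P₂, P₃}

open Classical in
/-- the number of ordered pairs of orthogonal circles -/
noncomputable def pairs (S : Finset Circ) : ℕ := ((S ×ˢ S).filter (fun x => Orth x.1 x.2)).card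

/-- `f` maps the closed unit disc homeomorphically onto the closed disc of `D`, the real diameter goes to the part of `A`
and the imaginary diameter to the part of `B` in it, the centre to `p` -/
def Chart (A B D : Circ) (p : ℂ) (f : ℂ → ℂ) : Prop :=
  InjOn f (closedBall 0 1) ∧ ContinuousOn f (closedBall 0 1) ∧ f '' closedBall 0 1 = D.disc ∧ f 0 = p ∧
    ∀ w ∈ closedBall (0 : ℂ) 1, (f w ∈ D.pts ↔ ‖w‖ = 1) ∧ (f w ∈ A.pts ↔ w.im = 0) ∧ (f w ∈ B.pts ↔ w.re = 0)

/-- M1: tiny circles orthogonal to two orthogonal circles.  (Let `p'` be the other point of `A ∩ B`,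
`M(z) = (z - p) / (z - p')`; `D = {z : ‖z - p‖ = s ‖z - p'‖}`, `s` small, has the centre `(p - s² p') / (1 - s²)` and the
radius `s ‖p - p'‖ / (1 - s²)`.  For a circle `A` through `p`, `p'`:
`‖z - c‖² - r² = 2 ‖z - p'‖² Im (M(z) * conj g)`, `g = i (c - p) / (p - p')`; so `A` is `Im (M(z) * conj u) = 0` and `B` is
`Re (M(z) * conj u) = 0`, `u = g / ‖g‖`; `f(w) = M⁻¹(s u w)`, `M⁻¹(v) = (p - p' v) / (1 - v)`.) -/
def S_M1 : Prop := ∀ (A B : Circ) (p : ℂ), Orth A B → p ∈ A.pts → p ∈ B.pts → ∀ ε : ℝ, 0 < ε →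
  ∃ (D : Circ) (f : ℂ → ℂ), Orth A D ∧ Orth B D ∧ D.disc ⊆ ball p ε ∧ Chart A B D p f

/-- M2: the four quarters of a tiny circle are triangular faces.  (`Q = f '' {w : ‖w‖ < 1, ± re w > 0, ± im w > 0}` is open
(`f` is a homeomorphism onto the closed disc), connected, disjoint from the circles, and its frontier is the image of
two radii and a quarter of the unit circle.  A preconnected set disjoint from the closed set `un S` whose frontier is in
`un S` is a face.) -/
def S_M2 : Prop := ∀ (A B D : Circ) (p : ℂ) (f : ℂ → ℂ) (S : Finset Circ), Orth A B → Orth A D → Orth B D →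
  Chart A B D p f → A ∈ S → B ∈ S → D ∈ S →
  (∀ C ∈ S, C ≠ A → C ≠ B → C ≠ D → Disjoint C.pts D.disc) →
  ∃ Q : Fin 4 → Set ℂ, Function.Injective Q ∧ ∀ i, Triangular S (Q i) ∧ Q i ⊆ D.disc

/-- CRS: the number of crossing points.  (Two orthogonal circles meet in exactly two points; three circles of an arrangement
have no common point: `|a - b|² = r_a² + r_b²` and `|z - a| = r_a`, `|z - b| = r_b` mean that `a - z` and `b - z` are
orthogonal, and three nonzero vectors of the plane are not pairwise orthogonal.  So `(A, B)` and the side (for an ordered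
pair the crossing point of `A` and `B` to the left of the way from `A.c` to `B.c`) give a bijection of the ordered pairs with
the crossing points.) -/
def S_CRS : Prop := ∀ S : Finset Circ, IsArr S → (cross S).Finite ∧ (cross S).ncard = pairs S

/-- RING: concentric rings of circles.  Let `k ≥ 20`, `θ = π / k`, `x` the root `< 1` of
`x + 1 / x = 2 cos θ / cos (2 θ)`.  Ring `j` (`0 ≤ j < m`): `k` circles with the centres `x ^ j exp (i (2 a + j) θ)`,
`a` modulo `k`, and the radius `√2 sin θ x ^ j`; each is orthogonal to its two neighbours in the ring and to two circles of ring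
`j + 1` and two of ring `j - 1`; the circle with the centre `0` and the radius `x ^ j √(cos (2 θ))` is orthogonal to all the
circles of ring `j`; all other pairs are disjoint. -/
def S_RING : Prop := ∃ k₀ : ℕ, ∀ k : ℕ, k₀ ≤ k → ∀ m : ℕ, 1 ≤ m →
  ∃ S : Finset Circ, IsArr S ∧ S.card = m * (k + 1) ∧ 8 * m * k ≤ pairs S + 4 * k

/-- HEX: circles of radius `1 / √2` around the points `a + b exp (i π / 3)`, `0 ≤ a, b < m` -/
def S_HEX : Prop := ∀ m : ℕ, 1 ≤ m → ∃ S : Finset Circ, IsArr S ∧ S.card = m ^ 2 ∧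
  6 * m ^ 2 ≤ pairs S + 8 * m

/-- STEP: circles around some of the crossing points -/
def S_STEP : Prop := ∀ S : Finset Circ, IsArr S → ∀ P : Finset ℂ, (P : Set ℂ) ⊆ cross S →
  ∃ S' : Finset Circ, IsArr S' ∧ S'.card = S.card + P.card ∧ pairs S + 4 * P.card ≤ pairs S' ∧
    ∃ T : Finset (Set ℂ), (∀ F ∈ T, Triangular S' F) ∧ T.card = 4 * P.card

/-- the theorem -/
def S_GOAL : Prop :=
  (∃ C : ℝ, ∀ n : ℕ, ∃ S : Finset Circ, IsArr S ∧ S.card = n ∧
    ∃ T : Finset (Set ℂ), (∀ F ∈ T, Triangular S F) ∧ 32 / 9 * (n : ℝ) - C * √(n : ℝ) ≤ (T.card : ℝ)) ∧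
  (∀ n : ℕ, 2 ≤ n → ∃ S : Finset Circ, IsArr S ∧ S.card = n ∧
    ∃ T : Finset (Set ℂ), (∀ F ∈ T, Triangular S F) ∧ (16 * (n : ℝ) - 40) / 5 ≤ (T.card : ℝ)) ∧
  (∀ n : ℕ, 26 ≤ n → ∃ S : Finset Circ, IsArr S ∧ S.card = n ∧
    ∃ T : Finset (Set ℂ), (∀ F ∈ T, Triangular S F) ∧ 3 * (n : ℝ) - 3 < (T.card : ℝ))

end Pool.Agent.U723.OC
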