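import Mathlib
import Pool.Agent.U723.OC.Stm

/-!
# Project OC, packages STEP and GOAL
-/

set_option autoImplicit false

open Metric Set Filter Topology

namespace Pool.Agent.U723.OC

theorem orth_symm {A B : Circ} (h : Orth A B) : Orth B A := by
  unfold Orth at *
  rw [dist_comm, h]; ring

theorem orth_irrefl (A : Circ) : ¬ Orth A A := by
  unfold Orth
  rw [dist_self]
  have := A.pos
  intro h
  nlinarith

theorem orth_ne {A B : Circ} (h : Orth A B) : A ≠ B := by
  rintro rfl
  exact orth_irrefl _ h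

theorem orth_dot {A B : Circ} (h : Orth A B) {z : ℂ} (hA : z ∈ A.pts) (hB : z ∈ B.pts) :
    (A.c - z).re * (B.c - z).re + (A.c - z).im * (B.c - z).im = 0 := by
  have h1 : dist z A.c = A.r := hA
  have h2 : dist z B.c = B.r := hB
  unfold Orth at h
  rw [← h1, ← h2, dist_comm z, dist_comm z, Complex.dist_eq, Complex.dist_eq, Complex.dist_eq,
    Complex.sq_norm, Complex.sq_norm, Complex.sq_norm, Complex.normSq_apply, Complex.normSq_apply,
    Complex.normSq_apply] at h
  simp only [Complex.sub_re, Complex.sub_im] at *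
  linarith

theorem three {A B C : Circ} (hAB : Orth A B) (hAC : Orth A C) (hBC : Orth B C) {z : ℂ}
    (hA : z ∈ A.pts) (hB : z ∈ B.pts) (hC : z ∈ C.pts) : False := by
  have h1 := orth_dot hAB hA hB
  have h2 := orth_dot hAC hA hC
  have h3 := orth_dot hBC hB hC
  have hn : ∀ X : Circ, z ∈ X.pts → 0 < (X.c - z).re ^ 2 + (X.c - z).im ^ 2 := by
    intro X hX
    have h4 : dist z X.c = X.r := hX
    have h5 : X.c - z ≠ 0 := by
      intro h
      rw [sub_eq_zero] at h
      rw [h, dist_self] at h4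
      exact X.pos.ne h4
    have h6 := Complex.normSq_pos.2 h5
    rw [Complex.normSq_apply] at h6
    nlinarith
  have hA' := hn A hA
  have hB' := hn B hB
  have hC' := hn C hC
  set a := (A.c - z).re
  set a' := (A.c - z).im
  set b := (B.c - z).re
  set b' := (B.c - z).im
  set c := (C.c - z).re
  set c' := (C.c - z).im
  have e1 : (a * b' - a' * b) * c = 0 := by linear_combination b' * h2 - a' * h3
  have e2 : (a * b' - a' * b) * c' = 0 := by linear_combination (-b) * h2 + a * h3
  have e3 : (a * b' - a' * b) ^ 2 * (c ^ 2 + c' ^ 2) = 0 := by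
    linear_combination (a * b' - a' * b) * c * e1 + (a * b' - a' * b) * c' * e2
  have e4 : (a * b' - a' * b) ^ 2 = 0 := (mul_eq_zero.1 e3).resolve_right hC'.ne'
  have e5 : (a ^ 2 + a' ^ 2) * (b ^ 2 + b' ^ 2) = 0 := by
    linear_combination e4 + (a * b + a' * b') * h1
  rcases mul_eq_zero.1 e5 with h | h
  · exact hA'.ne' h
  · exact hB'.ne' h

theorem orth_of_mem {S : Finset Circ} (hS : IsArr S) {A B : Circ} (hA : A ∈ S) (hB : B ∈ S) (hAB : A ≠ B)
    {z : ℂ} (hzA : z ∈ A.pts) (hzB : z ∈ B.pts) : Orth A B := by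
  rcases hS A hA B hB hAB with h | h
  · exact h
  · exact absurd hzB (Set.disjoint_left.1 h hzA)

theorem only_two {S : Finset Circ} (hS : IsArr S) {A B C : Circ} (hA : A ∈ S) (hB : B ∈ S) (hC : C ∈ S)
    (hAB : A ≠ B) {z : ℂ} (hzA : z ∈ A.pts) (hzB : z ∈ B.pts) (hCA : C ≠ A) (hCB : C ≠ B) : z ∉ C.pts := by
  intro hzC
  exact three (orth_of_mem hS hA hB hAB hzA hzB) (orth_of_mem hS hA hC hCA.symm hzA hzC)
    (orth_of_mem hS hB hC hCB.symm hzB hzC) hzA hzB hzC

theorem pts_subset_disc (C : Circ) : C.pts ⊆ C.disc := sphere_subset_closedBall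

theorem pts_nonempty (C : Circ) : C.pts.Nonempty := by
  refine ⟨C.c + (C.r : ℂ), ?_⟩
  show dist (C.c + (C.r : ℂ)) C.c = C.r
  rw [dist_eq_norm, add_sub_cancel_left, Complex.norm_real, Real.norm_eq_abs, abs_of_pos C.pos]

theorem face_nonempty {S : Finset Circ} {F : Set ℂ} (h : IsFace S F) : F.Nonempty := by
  obtain ⟨z, hz, rfl⟩ := h
  exact ⟨z, mem_connectedComponentIn hz⟩

open Classical in
theorem t_STEP : S_M1 → S_M2 → S_STEP := by
  intro hM1 hM2 S hS P hP
  -- the two circles through p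
  have h1 : ∀ p : ℂ, ∃ A B : Circ, p ∈ P → A ∈ S ∧ B ∈ S ∧ A ≠ B ∧ p ∈ A.pts ∧ p ∈ B.pts := by
    intro p
    by_cases hp : p ∈ P
    · obtain ⟨A, hA, B, hB, hAB, h1, h2⟩ := hP (Finset.mem_coe.2 hp)
      exact ⟨A, B, fun _ => ⟨hA, hB, hAB, h1, h2⟩⟩
    · exact ⟨⟨0, 1, one_pos⟩, ⟨0, 1, one_pos⟩, fun h => absurd h hp⟩
  choose a b hab using h1
  have ev1 : ∀ᶠ ε in 𝓝[>] (0:ℝ), ∀ p ∈ P, ∀ C ∈ S, C ≠ a p → C ≠ b p → Disjoint (ball p ε) C.pts := by
    rw [Filter.eventually_all_finset]
    intro p hp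
    rw [Filter.eventually_all_finset]
    intro C hC
    by_cases h : C ≠ a p ∧ C ≠ b p
    · obtain ⟨hA, hB, hAB, h1, h2⟩ := hab p hp
      have h3 := only_two hS hA hB hC hAB h1 h2 h.1 h.2
      have h4 : C.ptsᶜ ∈ 𝓝 p := isClosed_sphere.isOpen_compl.mem_nhds h3
      obtain ⟨δ, hδ, h5⟩ := Metric.mem_nhds_iff.1 h4
      have h6 : ∀ᶠ ε in 𝓝[>] (0:ℝ), ε < δ := Filter.Eventually.filter_mono nhdsWithin_le_nhds (gt_mem_nhds hδ)
      filter_upwards [h6] with ε hε _ _
      rw [Set.disjoint_left]
      intro x hx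
      exact h5 (ball_subset_ball hε.le hx)
    · refine Filter.Eventually.of_forall (fun ε h1 h2 => absurd ⟨h1, h2⟩ h)
  have ev2 : ∀ᶠ ε in 𝓝[>] (0:ℝ), ∀ p ∈ P, ∀ q ∈ P, p ≠ q → 2 * ε < dist p q := by
    rw [Filter.eventually_all_finset]
    intro p hp
    rw [Filter.eventually_all_finset]
    intro q hq
    by_cases h : p = q
    · exact Filter.Eventually.of_forall (fun ε h1 => absurd h h1)
    · have h2 : 0 < dist p q / 2 := by
        have := dist_pos.2 h
        linarith
      have h6 : ∀ᶠ ε in 𝓝[>] (0:ℝ), ε < dist p q / 2 :=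
        Filter.Eventually.filter_mono nhdsWithin_le_nhds (gt_mem_nhds h2)
      filter_upwards [h6] with ε hε _
      linarith
  obtain ⟨ε, ⟨hε1, hε2⟩, hε0⟩ := ((ev1.and ev2).and self_mem_nhdsWithin).exists
  have hε0' : 0 < ε := hε0
  -- the tiny circles
  have h2 : ∀ p : ℂ, ∃ (D : Circ) (f : ℂ → ℂ), p ∈ P → Orth (a p) D ∧ Orth (b p) D ∧ D.disc ⊆ ball p ε ∧
      Chart (a p) (b p) D p f := by
    intro p
    by_cases hp : p ∈ P
    · obtain ⟨hA, hB, hAB, h1, h2⟩ := hab p hp
      obtain ⟨D, f, h3⟩ := hM1 (a p) (b p) p (orth_of_mem hS hA hB hAB h1 h2) h1 h2 ε hε0'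
      exact ⟨D, f, fun _ => h3⟩
    · exact ⟨⟨0, 1, one_pos⟩, fun z => z, fun h => absurd h hp⟩
  choose D f hD using h2
  have pD : ∀ p ∈ P, p ∈ (D p).disc := by
    intro p hp
    obtain ⟨-, -, -, -, -, h3, h4, -⟩ := hD p hp
    rw [← h3, ← h4]
    rw [h4]
    exact ⟨0, by simp, h4⟩
  have hball : ∀ p ∈ P, ∀ q ∈ P, p ≠ q → Disjoint (ball p ε) (ball q ε) := by
    intro p hp q hq hpq
    refine ball_disjoint_ball ?_
    have := hε2 p hp q hq hpq
    linarith
  have Dinj : Set.InjOn D (P : Set ℂ) := by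
    intro p hp q hq h
    by_contra hpq
    have h3 := (hD p hp).2.2.1 (pD p hp)
    have h4 : p ∈ ball q ε := by
      have := pD p hp
      rw [h] at this
      exact (hD q hq).2.2.1 this
    exact Set.disjoint_left.1 (hball p hp q hq hpq) h3 h4
  have DnS : ∀ p ∈ P, D p ∉ S := by
    intro p hp hDS
    obtain ⟨o1, o2, h3, -⟩ := hD p hp
    have h4 := hε1 p hp (D p) hDS (orth_ne o1).symm (orth_ne o2).symm
    obtain ⟨x, hx⟩ := pts_nonempty (D p)
    exact Set.disjoint_left.1 h4 (h3 (pts_subset_disc _ hx)) hx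
  have hfar : ∀ p ∈ P, ∀ C ∈ S, C ≠ a p → C ≠ b p → Disjoint C.pts (D p).disc := by
    intro p hp C hC h3 h4
    exact (hε1 p hp C hC h3 h4).symm.mono_right (hD p hp).2.2.1
  have hfar2 : ∀ p ∈ P, ∀ q ∈ P, p ≠ q → Disjoint (D q).disc (D p).disc := by
    intro p hp q hq hpq
    exact (hball q hq p hp hpq.symm).mono (hD q hq).2.2.1 (hD p hp).2.2.1
  set S' : Finset Circ := S ∪ P.image D with hS'
  have hSS' : S ⊆ S' := Finset.subset_union_left
  have hdisj : Disjoint S (P.image D) := by
    rw [Finset.disjoint_right]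
    intro x hx
    obtain ⟨p, hp, rfl⟩ := Finset.mem_image.1 hx
    exact DnS p hp
  have hcard : S'.card = S.card + P.card := by
    rw [hS', Finset.card_union_of_disjoint hdisj, Finset.card_image_of_injOn Dinj]
  have hArr : IsArr S' := by
    have key : ∀ C ∈ S, ∀ p ∈ P, Orth C (D p) ∨ Disjoint C.pts (D p).pts := by
      intro C hC p hp
      by_cases h3 : C = a p
      · left; rw [h3]; exact (hD p hp).1
      · by_cases h4 : C = b p
        · left; rw [h4]; exact (hD p hp).2.1
        · right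
          exact (hfar p hp C hC h3 h4).mono_right (pts_subset_disc _)
    intro A hA B hB hAB
    rcases Finset.mem_union.1 hA with hA | hA
    · rcases Finset.mem_union.1 hB with hB | hB
      · exact hS A hA B hB hAB
      · obtain ⟨p, hp, rfl⟩ := Finset.mem_image.1 hB
        exact key A hA p hp
    · obtain ⟨p, hp, rfl⟩ := Finset.mem_image.1 hA
      rcases Finset.mem_union.1 hB with hB | hB
      · rcases key B hB p hp with h | h
        · exact Or.inl (orth_symm h)
        · exact Or.inr h.symm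
      · obtain ⟨q, hq, rfl⟩ := Finset.mem_image.1 hB
        right
        have hpq : p ≠ q := fun h => hAB (by rw [h])
        exact (hfar2 q hq p hp hpq.symm).mono (pts_subset_disc _) (pts_subset_disc _)
  refine ⟨S', hArr, hcard, ?_, ?_⟩
  · -- the pairs
    set φ : ℂ × (Bool × Bool) → Circ × Circ := fun x =>
      if x.2.2 then (if x.2.1 then a x.1 else b x.1, D x.1) else (D x.1, if x.2.1 then a x.1 else b x.1) with hφ
    set U : Finset (ℂ × (Bool × Bool)) := P ×ˢ Finset.univ with hU
    have hx : ∀ p ∈ P, ∀ i : Bool, (if i then a p else b p) ∈ S ∧ Orth (if i then a p else b p) (D p) := by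
      intro p hp i
      cases i
      · exact ⟨(hab p hp).2.1, (hD p hp).2.1⟩
      · exact ⟨(hab p hp).1, (hD p hp).1⟩
    have hinj : Set.InjOn φ (U : Set (ℂ × (Bool × Bool))) := by
      rintro ⟨p, i, j⟩ hp ⟨q, i', j'⟩ hq h
      have hp' : p ∈ P := (Finset.mem_product.1 (Finset.mem_coe.1 hp)).1
      have hq' : q ∈ P := (Finset.mem_product.1 (Finset.mem_coe.1 hq)).1
      have e1 := hx p hp' i
      have e2 := hx q hq' i'
      have n1 := DnS p hp'
      have n2 := DnS q hq'
      have hne : a p ≠ b p := (hab p hp').2.2.1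
      have hii : ∀ i i' : Bool, (if i = true then a p else b p) = (if i' = true then a p else b p) →
          i = i' := by
        intro i i' h
        cases i <;> cases i'
        · rfl
        · exact absurd h.symm hne
        · exact absurd h hne
        · rfl
      simp only [hφ] at h
      cases j <;> cases j' <;> simp only [if_true, if_false, Bool.false_eq_true, Prod.mk.injEq] at h
      · have hpq := Dinj hp' hq' h.1
        subst hpq
        rw [hii i i' h.2]
      · exfalso
        rw [h.1] at n1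
        exact n1 e2.1
      · exfalso
        rw [← h.1] at n2
        exact n2 e1.1
      · have hpq := Dinj hp' hq' h.2
        subst hpq
        rw [hii i i' h.1]
    have hsub : ((S ×ˢ S).filter (fun x => Orth x.1 x.2)) ∪ U.image φ ⊆
        (S' ×ˢ S').filter (fun x => Orth x.1 x.2) := by
      intro x hxm
      rcases Finset.mem_union.1 hxm with h | h
      · rw [Finset.mem_filter, Finset.mem_product] at h ⊢
        exact ⟨⟨hSS' h.1.1, hSS' h.1.2⟩, h.2⟩
      · obtain ⟨⟨p, i, j⟩, hp, rfl⟩ := Finset.mem_image.1 h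
        have hp' : p ∈ P := (Finset.mem_product.1 hp).1
        have e1 := hx p hp' i
        have hDm : D p ∈ S' := Finset.mem_union_right _ (Finset.mem_image_of_mem _ hp')
        rw [Finset.mem_filter, Finset.mem_product]
        cases j
        · exact ⟨⟨hDm, hSS' e1.1⟩, orth_symm e1.2⟩
        · exact ⟨⟨hSS' e1.1, hDm⟩, e1.2⟩
    have hdis : Disjoint ((S ×ˢ S).filter (fun x => Orth x.1 x.2)) (U.image φ) := by
      rw [Finset.disjoint_right]
      intro x hxm h
      obtain ⟨⟨p, i, j⟩, hp, rfl⟩ := Finset.mem_image.1 hxm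
      have hp' : p ∈ P := (Finset.mem_product.1 hp).1
      rw [Finset.mem_filter, Finset.mem_product] at h
      cases j
      · exact DnS p hp' h.1.1
      · exact DnS p hp' h.1.2
    have h3 := Finset.card_le_card hsub
    rw [Finset.card_union_of_disjoint hdis, Finset.card_image_of_injOn hinj, hU, Finset.card_product] at h3
    have h4 : (Finset.univ : Finset (Bool × Bool)).card = 4 := by decide
    rw [h4] at h3
    unfold pairs
    linarith
  · -- the faces
    have h3 : ∀ p : ℂ, ∃ Q : Fin 4 → Set ℂ, p ∈ P → Function.Injective Q ∧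
        ∀ i, Triangular S' (Q i) ∧ Q i ⊆ (D p).disc := by
      intro p
      by_cases hp : p ∈ P
      · obtain ⟨hA, hB, hAB, h1, h2⟩ := hab p hp
        obtain ⟨o1, o2, o3, o4⟩ := hD p hp
        have hDm : D p ∈ S' := Finset.mem_union_right _ (Finset.mem_image_of_mem _ hp)
        obtain ⟨Q, hQ⟩ := hM2 (a p) (b p) (D p) p (f p) S' (orth_of_mem hS hA hB hAB h1 h2) o1 o2 o4
          (hSS' hA) (hSS' hB) hDm (by
            intro C hC c1 c2 c3
            rcases Finset.mem_union.1 hC with hC | hC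
            · exact hfar p hp C hC c1 c2
            · obtain ⟨q, hq, rfl⟩ := Finset.mem_image.1 hC
              have hpq : p ≠ q := fun h => c3 (by rw [h])
              exact (hfar2 p hp q hq hpq).mono_left (pts_subset_disc _))
        exact ⟨Q, fun _ => hQ⟩
      · exact ⟨fun _ => ∅, fun h => absurd h hp⟩
    choose Q hQ using h3
    refine ⟨(P ×ˢ (Finset.univ : Finset (Fin 4))).image (fun x => Q x.1 x.2), ?_, ?_⟩
    · intro F hF
      obtain ⟨⟨p, i⟩, hp, rfl⟩ := Finset.mem_image.1 hF
      exact ((hQ p (Finset.mem_product.1 hp).1).2 i).1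
    · rw [Finset.card_image_of_injOn, Finset.card_product]
      · simp [mul_comm]
      · rintro ⟨p, i⟩ hp ⟨q, j⟩ hq h
        have hp' : p ∈ P := (Finset.mem_product.1 (Finset.mem_coe.1 hp)).1
        have hq' : q ∈ P := (Finset.mem_product.1 (Finset.mem_coe.1 hq)).1
        simp only at h
        have hpq : p = q := by
          by_contra hne
          obtain ⟨x, hx⟩ := face_nonempty ((hQ p hp').2 i).1.1
          have h5 := ((hQ p hp').2 i).2 hx
          rw [h] at hx
          have h6 := ((hQ q hq').2 j).2 hx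
          exact Set.disjoint_left.1 (hfar2 p hp' q hq' hne) h6 h5
        subst hpq
        rw [(hQ p hp').1 h]

end Pool.Agent.U723.OC
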