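import Mathlib
import Pool.Agent.U723.OC.Step

/-!
# Project OC: the assembly
-/

set_option autoImplicit false

open Metric Set Filter Topology

namespace Pool.Agent.U723.OC

/-- from an arrangement with many orthogonal pairs -/
theorem use (hST : S_STEP) (hC : S_CRS) (S : Finset Circ) (hS : IsArr S) (j : ℕ) (hj : j ≤ pairs S) :
    ∃ S' : Finset Circ, IsArr S' ∧ S'.card = S.card + j ∧ pairs S + 4 * j ≤ pairs S' ∧
      ∃ T : Finset (Set ℂ), (∀ F ∈ T, Triangular S' F) ∧ T.card = 4 * j := by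
  obtain ⟨hfin, hcard⟩ := hC S hS
  have h1 : j ≤ hfin.toFinset.card := by
    rw [← Set.ncard_eq_toFinset_card _ hfin, hcard]
    exact hj
  obtain ⟨P, hP, hPj⟩ := Finset.exists_subset_card_eq h1
  have hP' : (P : Set ℂ) ⊆ cross S := by
    intro x hx
    exact hfin.mem_toFinset.1 (hP hx)
  obtain ⟨S', h2, h3, h4, T, h5, h6⟩ := hST S hS P hP'
  exact ⟨S', h2, by rw [h3, hPj], by rw [← hPj]; exact h4, T, h5, by rw [h6, hPj]⟩

/-- arrangements of `n` circles with `4 n - 6` crossing points -/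
theorem base (hST : S_STEP) (hC : S_CRS) (n : ℕ) : ∃ S : Finset Circ, IsArr S ∧ S.card = n + 2 ∧
    4 * n + 2 ≤ pairs S := by
  classical
  induction n with
  | zero =>
    set A : Circ := ⟨0, 3, by norm_num⟩ with hA
    set B : Circ := ⟨5, 4, by norm_num⟩ with hB
    have hO : Orth A B := by
      show dist (0:ℂ) 5 ^ 2 = (3:ℝ) ^ 2 + 4 ^ 2
      rw [dist_comm, Complex.dist_eq, sub_zero]
      norm_num
    have hne : A ≠ B := orth_ne hO
    refine ⟨{A, B}, ?_, ?_, ?_⟩
    · intro X hX Y hY hXY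
      rw [Finset.mem_insert, Finset.mem_singleton] at hX hY
      rcases hX with rfl | rfl <;> rcases hY with rfl | rfl
      · exact absurd rfl hXY
      · exact Or.inl hO
      · exact Or.inl (orth_symm hO)
      · exact absurd rfl hXY
    · rw [Finset.card_pair hne]
    · have h1 : ({(A, B), (B, A)} : Finset (Circ × Circ)) ⊆
          ((({A, B} : Finset Circ) ×ˢ ({A, B} : Finset Circ)).filter (fun x => Orth x.1 x.2)) := by
        intro x hx
        rw [Finset.mem_insert, Finset.mem_singleton] at hx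
        rw [Finset.mem_filter, Finset.mem_product]
        rcases hx with rfl | rfl
        · exact ⟨⟨by simp, by simp⟩, hO⟩
        · exact ⟨⟨by simp, by simp⟩, orth_symm hO⟩
      have h2 := Finset.card_le_card h1
      rw [Finset.card_pair (by
        intro h
        exact hne (Prod.mk.inj h).1)] at h2
      unfold pairs
      convert h2
  | succ n ih =>
    obtain ⟨S, h1, h2, h3⟩ := ih
    obtain ⟨S', h4, h5, h6, -⟩ := use hST hC S h1 1 (by omega)
    exact ⟨S', h4, by omega, by omega⟩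

/-- concentric circles -/
theorem conc (n : ℕ) : ∃ S : Finset Circ, IsArr S ∧ S.card = n := by
  classical
  set g : ℕ → Circ := fun i => ⟨0, (i : ℝ) + 1, by positivity⟩ with hg
  have hinj : Function.Injective g := by
    intro i j h
    have h1 : (g i).r = (g j).r := by rw [h]
    simp only [hg] at h1
    have h2 : (i : ℝ) = j := by linarith
    exact_mod_cast h2
  refine ⟨(Finset.range n).image g, ?_, ?_⟩
  · intro A hA B hB hAB
    obtain ⟨i, -, rfl⟩ := Finset.mem_image.1 hA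
    obtain ⟨j, -, rfl⟩ := Finset.mem_image.1 hB
    right
    rw [Set.disjoint_left]
    intro x hx hy
    have h1 : dist x 0 = (i : ℝ) + 1 := hx
    have h2 : dist x 0 = (j : ℝ) + 1 := hy
    apply hAB
    have h3 : (i : ℝ) = j := by linarith
    have h4 : i = j := by exact_mod_cast h3
    rw [h4]
  · rw [Finset.card_image_of_injective _ hinj, Finset.card_range]

theorem part2 (hST : S_STEP) (hC : S_CRS) (n : ℕ) (hn : 2 ≤ n) : ∃ S : Finset Circ, IsArr S ∧ S.card = n ∧
    ∃ T : Finset (Set ℂ), (∀ F ∈ T, Triangular S F) ∧ (16 * (n : ℝ) - 40) / 5 ≤ (T.card : ℝ) := by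
  have h0 : n / 5 ≤ n := Nat.div_le_self _ _
  obtain ⟨S, h1, h2, h3⟩ := base hST hC (n / 5)
  by_cases hle : n / 5 + 2 ≤ n
  · obtain ⟨S', h4, h5, -, T, h6, h7⟩ := use hST hC S h1 (n - (n / 5 + 2)) (by omega)
    refine ⟨S', h4, by omega, T, h6, ?_⟩
    rw [h7]
    have e1 : 5 * (n / 5) ≤ n := by omega
    have e2 : (5 : ℝ) * ((n / 5 : ℕ) : ℝ) ≤ n := by exact_mod_cast e1
    rw [Nat.cast_mul, Nat.cast_sub hle]
    push_cast
    have e3 : ((n / 5 : ℕ) : ℝ) ≤ (n : ℝ) / 5 := by linarith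
    push_cast at e3
    linarith
  · exfalso
    omega

theorem t_GOAL (hST : S_STEP) (hC : S_CRS) (hR : S_RING) : S_GOAL := by
  refine ⟨?_, part2 hST hC, ?_⟩
  · obtain ⟨k₀, hk₀⟩ := hR
    set n₁ : ℕ := (3 * k₀ + 12) ^ 2 with hn₁
    refine ⟨20 / 3 + 24 + 32 / 9 * √(n₁ : ℝ), fun n => ?_⟩
    by_cases hn : n < n₁
    · obtain ⟨S, h1, h2⟩ := conc n
      refine ⟨S, h1, h2, ∅, by simp, ?_⟩
      have e1 : √(n : ℝ) ≤ √(n₁ : ℝ) := Real.sqrt_le_sqrt (by exact_mod_cast hn.le)
      have e2 : √(n : ℝ) * √(n : ℝ) = n := Real.mul_self_sqrt (by positivity)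
      have e3 : 0 ≤ √(n : ℝ) := Real.sqrt_nonneg _
      simp only [Finset.card_empty, Nat.cast_zero]
      nlinarith
    · push Not at hn
      set s : ℝ := √(n : ℝ) with hs
      have e2 : s * s = n := Real.mul_self_sqrt (by positivity)
      have e3 : 0 ≤ s := Real.sqrt_nonneg _
      have e4 : (3 * k₀ + 12 : ℝ) ≤ s := by
        have h1 : ((n₁ : ℕ) : ℝ) ≤ n := by exact_mod_cast hn
        have h2 : √((n₁ : ℕ) : ℝ) ≤ s := Real.sqrt_le_sqrt h1
        rw [hn₁] at h2
        push_cast at h2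
        rwa [Real.sqrt_sq (by positivity)] at h2
      set k : ℕ := ⌈s / 3⌉₊ + 1 with hk
      have e5 : s / 3 ≤ (⌈s / 3⌉₊ : ℝ) := Nat.le_ceil _
      have e6 : (⌈s / 3⌉₊ : ℝ) < s / 3 + 1 := Nat.ceil_lt_add_one (by positivity)
      have e7 : (k : ℝ) = (⌈s / 3⌉₊ : ℝ) + 1 := by rw [hk]; push_cast; ring
      have e8 : s / 3 + 1 ≤ k := by linarith
      have e9 : (k : ℝ) ≤ s / 3 + 2 := by linarith
      have hkk : k₀ ≤ k := by
        have : (k₀ : ℝ) ≤ k := by linarith
        exact_mod_cast this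
      have hk1 : 1 ≤ k := by omega
      obtain ⟨S, h1, h2, h3⟩ := hk₀ k hkk k hk1
      have e10 : ((k * (k + 1) : ℕ) : ℝ) ≤ n / 9 + 5 / 3 * s + 6 := by
        push_cast
        nlinarith
      have e11 : k * (k + 1) ≤ n := by
        have h4 : ((k * (k + 1) : ℕ) : ℝ) ≤ (n : ℝ) := by
          refine e10.trans ?_
          nlinarith
        exact_mod_cast h4
      have e12 : n ≤ k * (k + 1) + pairs S := by
        have h4 : (n : ℝ) ≤ 9 * k ^ 2 - 3 * k := by nlinarith
        have h5 : n + 3 * k ≤ 9 * k ^ 2 := by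
          have : ((n + 3 * k : ℕ) : ℝ) ≤ ((9 * k ^ 2 : ℕ) : ℝ) := by push_cast; linarith
          exact_mod_cast this
        nlinarith
      obtain ⟨S', h4, h5, -, T, h6, h7⟩ := use hST hC S h1 (n - k * (k + 1)) (by omega)
      refine ⟨S', h4, by omega, T, h6, ?_⟩
      rw [h7, Nat.cast_mul, Nat.cast_sub e11]
      have e13 : 1 ≤ s := by nlinarith
      have e14 : 0 ≤ √(n₁ : ℝ) := Real.sqrt_nonneg _
      have e15 : 0 ≤ √(n₁ : ℝ) * s := mul_nonneg e14 e3
      push_cast at e10 ⊢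
      nlinarith
  · intro n hn
    obtain ⟨S, h1, h2, T, h3, h4⟩ := part2 hST hC n (by omega)
    refine ⟨S, h1, h2, T, h3, ?_⟩
    have h5 : (26 : ℝ) ≤ n := by exact_mod_cast hn
    refine lt_of_lt_of_le ?_ h4
    linarith

end Pool.Agent.U723.OC
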